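import Pool.Agent.H31.BOU.Targets1
import Pool.Agent.H31.BOU.Targets2

/-!
# Row RHO: the Fourier transform of the localised function
-/

set_option autoImplicit false

open Finset Pool.Agent.H31.BOU

namespace Pool.Agent.H81.BOU

theorem norm_ee (t : ℝ) : ‖ee t‖ = 1 := by
  unfold ee
  exact Complex.norm_exp_ofReal_mul_I _

theorem mem_blk {j : ℕ} {m v : ℤ} : v ∈ blk j m ↔ v / 2 ^ j = m := by
  unfold blk
  rw [mem_Ico]
  have h : (0 : ℤ) < 2 ^ j := by positivity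
  constructor
  · rintro ⟨h1, h2⟩
    apply le_antisymm
    · rw [← Int.lt_add_one_iff]
      exact (Int.ediv_lt_iff_lt_mul h).2 h2
    · exact (Int.le_ediv_iff_mul_le h).2 h1
  · intro h1
    exact ⟨(Int.le_ediv_iff_mul_le h).1 h1.ge, (Int.ediv_lt_iff_lt_mul h).1 (by omega)⟩

/-- the window is a union of blocks -/
theorem sum_win {M : Type*} [AddCommMonoid M] (f : ℤ → M) (j : ℕ) (x y : ℤ) (hxy : x ≤ y) :
    ∑ v ∈ Ico (x * 2 ^ j) (y * 2 ^ j), f v = ∑ m ∈ Ico x y, ∑ v ∈ blk j m, f v := by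
  have h : (0 : ℤ) < 2 ^ j := by positivity
  have h1 : Ico (x * 2 ^ j) (y * 2 ^ j) = (Ico x y).biUnion fun m => blk j m := by
    ext v
    rw [mem_biUnion, mem_Ico]
    constructor
    · rintro ⟨h1, h2⟩
      exact ⟨v / 2 ^ j, mem_Ico.2 ⟨(Int.le_ediv_iff_mul_le h).2 h1,
        (Int.ediv_lt_iff_lt_mul h).2 h2⟩, mem_blk.2 rfl⟩
    · rintro ⟨m, hm, hv⟩
      rw [mem_blk] at hv
      rw [mem_Ico] at hm
      subst hv
      exact ⟨(Int.le_ediv_iff_mul_le h).1 hm.1, (Int.ediv_lt_iff_lt_mul h).1 hm.2⟩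
  rw [h1, sum_biUnion]
  intro m _ m' _ hne
  rw [Function.onFun, disjoint_left]
  intro v hv hv'
  rw [mem_blk] at hv hv'
  exact hne (hv.symm.trans hv')

theorem near_of_mem {r c i j : ℕ} {m κ v : ℤ} (hrc : r + 2 ≤ c) (hji : j ≤ i)
    (hv : v ∈ blk i m) (hv1 : (κ - r) * 2 ^ j ≤ v) (hv2 : v < (κ + r) * 2 ^ j) :
    near c i m j κ := by
  unfold blk at hv
  rw [mem_Ico] at hv
  have hp : (2 : ℤ) ^ j ≤ 2 ^ i := pow_le_pow_right₀ (by norm_num) hji
  have h0 : (0 : ℤ) < 2 ^ j := by positivity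
  have hc : ((r : ℤ) + 2) ≤ c := by exact_mod_cast hrc
  have h1 : ((r : ℤ) + 2) * 2 ^ j ≤ c * 2 ^ i :=
    mul_le_mul hc hp h0.le (by positivity)
  have h2 : (r : ℤ) * 2 ^ j ≤ c * 2 ^ i := by nlinarith
  refine ⟨hji, ?_, ?_⟩
  · nlinarith [hv.1, hv2]
  · nlinarith [hv.2, hv1]

open Classical in
/-- bound of the sum of the pieces -/
theorem str_le {ι : Type} [Fintype ι] (P : Fam ι) {r c j : ℕ} {κ v : ℤ} (hrc : r + 2 ≤ c)
    (hv1 : (κ - r) * 2 ^ j ≤ v) (hv2 : v < (κ + r) * 2 ^ j) :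
    ‖P.str j v‖ ≤ ∑ i ∈ univ.filter (fun i => near c (P.sc i) (P.mm i) j κ), ‖P.co i‖ := by
  unfold Fam.str
  refine (norm_sum_le _ _).trans ?_
  rw [sum_filter]
  refine sum_le_sum fun i _ => ?_
  by_cases h : j ≤ P.sc i ∧ v ∈ blk (P.sc i) (P.mm i)
  · rw [if_pos h, if_pos (near_of_mem hrc h.1 h.2 hv1 hv2), norm_mul, norm_ee, mul_one]
  · rw [if_neg h, norm_zero]
    split_ifs
    · exact norm_nonneg _
    · exact le_rfl

/-- Cauchy-Schwarz -/
theorem sum_le_pow {ι : Type} (s : Finset ι) (f : ι → ℝ) (q : ℝ) (n : ℕ) (hq : 1 ≤ q)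
    (hf : ∀ i ∈ s, 0 ≤ f i) (h1 : (s.card : ℝ) ≤ q ^ (2 * n + 1)) (h2 : ∑ i ∈ s, f i ^ 2 ≤ q) :
    ∑ i ∈ s, f i ≤ q ^ (n + 1) := by
  have h3 : (∑ i ∈ s, f i) ^ 2 ≤ s.card * ∑ i ∈ s, f i ^ 2 := sq_sum_le_card_mul_sum_sq
  have h4 : (s.card : ℝ) * ∑ i ∈ s, f i ^ 2 ≤ q ^ (2 * n + 1) * q :=
    mul_le_mul h1 h2 (sum_nonneg fun i _ => sq_nonneg _) (by positivity)
  have h5 : q ^ (2 * n + 1) * q = (q ^ (n + 1)) ^ 2 := by
    rw [← pow_mul, ← pow_succ]
    congr 1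
    ring
  rw [h5] at h4
  exact (pow_le_pow_iff_left₀ (sum_nonneg hf) (by positivity) two_ne_zero).1 (h3.trans h4)

theorem pf_RHO (hW : T_WIN) : T_RHO := by
  classical
  intro r
  have hK : (0 : ℝ) < K0 := by unfold K0; positivity
  refine ⟨4 * r * (526 * K0 + 4) + 1, by positivity, ?_⟩
  intro ι _ q P j κ c w β hq hrc hcf hcard hsum hw
  have hq0 : 0 < q := by linarith
  have hcard' : ((univ.filter (fun i => near c (P.sc i) (P.mm i) j κ)).card : ℝ) ≤ q ^ 65 := by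
    convert hcard
  have hsum' : ∑ i ∈ univ.filter (fun i => near c (P.sc i) (P.mm i) j κ), ‖P.co i‖ ^ 2 ≤ q := by
    convert hsum
  have hZ := sum_le_pow _ (fun i => ‖P.co i‖) q 32 hq (fun i _ => norm_nonneg _) hcard' hsum'
  have hwin : win r j κ = Ico ((κ - r) * 2 ^ j) ((κ + r) * 2 ^ j) := by
    unfold win
    congr 1
    push_cast
    ring
  have h2j : (0 : ℝ) < 2 ^ j := by positivity
  unfold ft
  rw [hwin, sum_win _ j (κ - r) (κ + r) (by omega)]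
  have hblk : ∀ m ∈ Ico (κ - r) (κ + r), ‖∑ v ∈ blk j m, (w v : ℂ) * P.str j v *
      ee (-(β * (v : ℝ)))‖ ≤ 2 * 2 ^ j * ((526 * K0 + 4) / q ^ 31) := by
    intro m hm
    rw [mem_Ico] at hm
    have h0 : (0 : ℤ) < 2 ^ j := by positivity
    have h1 := hW (fun v => P.str j v) j m w (K0 / q ^ 32) (q ^ 33) (q ^ 130) 1 (1 / 2 ^ j) β
      (by positivity) (by positivity) (one_le_pow₀ hq) zero_le_one (by positivity)
      (hcf m) (fun v hv => by
        rw [mem_blk] at hv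
        refine (str_le P hrc (κ := κ) ?_ ?_).trans hZ
        · exact (Int.le_ediv_iff_mul_le h0).1 (hv ▸ hm.1)
        · exact (Int.ediv_lt_iff_lt_mul h0).1 (hv ▸ hm.2))
      (fun v _ => (hw v).1) (fun v _ _ => (hw v).2)
    refine h1.trans ?_
    have h2 : (1 : ℝ) + 1 / 2 ^ j * 2 ^ j = 2 := by
      field_simp
      norm_num
    have h3 : Real.sqrt (q ^ 130) = q ^ 65 := by
      rw [show q ^ 130 = (q ^ 65) ^ 2 by ring]
      exact Real.sqrt_sq (by positivity)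
    have h4 : Real.log (q ^ 130) = 130 * Real.log q := by
      rw [Real.log_pow]
      norm_num
    have h5 : Real.log q ≤ q := Real.log_le_self hq0.le
    rw [h2, h3, h4]
    refine mul_le_mul_of_nonneg_left ?_ (by positivity)
    have h6 : K0 / q ^ 32 * (6 + 4 * (130 * Real.log q)) ≤ K0 / q ^ 32 * (526 * q) :=
      mul_le_mul_of_nonneg_left (by nlinarith) (by positivity)
    have h7 : K0 / q ^ 32 * (526 * q) = 526 * K0 / q ^ 31 := by
      field_simp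
    have h8 : 4 * q ^ 33 / q ^ 65 ≤ 4 / q ^ 31 := by
      rw [div_le_div_iff₀ (by positivity) (by positivity)]
      have : q ^ 64 ≤ q ^ 65 := pow_le_pow_right₀ hq (by norm_num)
      nlinarith
    rw [add_div]
    linarith
  refine (norm_sum_le _ _).trans ((sum_le_card_nsmul _ _ _ hblk).trans ?_)
  rw [Int.card_Ico, nsmul_eq_mul]
  have h9 : (((κ + r - (κ - r)).toNat : ℕ) : ℝ) = 2 * r := by
    have : (κ + r - (κ - r)).toNat = 2 * r := by omega
    rw [this]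
    push_cast
    ring
  rw [h9]
  have h10 : (0 : ℝ) < q ^ 31 := by positivity
  rw [le_div_iff₀ h10]
  have h11 : 2 * (r : ℝ) * (2 * 2 ^ j * ((526 * K0 + 4) / q ^ 31)) * q ^ 31 =
      4 * r * (526 * K0 + 4) * 2 ^ j := by
    field_simp
    ring
  rw [h11]
  nlinarith

end Pool.Agent.H81.BOU
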