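import Pool.Agent.H81.BOU.RHO

/-!
# Row SIG: the averages of `G` at frequencies far from the frequencies of `Q`
-/

set_option autoImplicit false

open Finset Pool.Agent.H31.BOU

namespace Pool.Agent.H81.BOU

theorem nd_neg (t : ℝ) : nd (-t) = nd t := by
  unfold nd
  rw [abs_sub_round_eq_min, abs_sub_round_eq_min]
  by_cases h : Int.fract t = 0
  · rw [Int.fract_neg_eq_zero.2 h, h]
  · rw [Int.fract_neg h, sub_sub_cancel, min_comm]

theorem ee_add (s t : ℝ) : ee (s + t) = ee s * ee t := by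
  unfold ee
  rw [← Complex.exp_add]
  congr 1
  push_cast
  ring

/-- points of the same small block are in the same large block -/
theorem blk_iff {i j : ℕ} (hji : j ≤ i) {m m' v : ℤ} (hv : v ∈ blk j m) :
    v ∈ blk i m' ↔ m / 2 ^ (i - j) = m' := by
  rw [mem_blk] at hv ⊢
  subst hv
  rw [Int.ediv_ediv_of_nonneg (by positivity), ← pow_add]
  have : j + (i - j) = i := by omega
  rw [this]

/-- one block, one piece -/
theorem piece (hA : T_ABL) {θ : Type} (Q : Fam θ) (u : θ) (j : ℕ) (m : ℤ) (w : ℤ → ℝ) (q β : ℝ)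
    (hq : 1 ≤ q) (hw : ∀ v, |w v| ≤ 2 / 2 ^ j) (hl : ∀ v, |w (v + 1) - w v| ≤ 4 / 4 ^ j)
    (hβ : q ^ 40 / 2 ^ j ≤ nd (β - Q.be u)) :
    ‖∑ v ∈ blk j m, (w v : ℂ) * (Q.co u * ee (Q.be u * (v : ℝ))) * ee (-(β * (v : ℝ)))‖ ≤
      ‖Q.co u‖ * (3 / q ^ 40) := by
  have hq0 : 0 < q := by linarith
  have h1 : ∑ v ∈ blk j m, (w v : ℂ) * (Q.co u * ee (Q.be u * (v : ℝ))) * ee (-(β * (v : ℝ))) =
      Q.co u * ∑ v ∈ blk j m, (w v : ℂ) * ee ((Q.be u - β) * (v : ℝ)) := by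
    rw [mul_sum]
    refine sum_congr rfl fun v _ => ?_
    have h2 : (Q.be u - β) * (v : ℝ) = Q.be u * (v : ℝ) + -(β * (v : ℝ)) := by ring
    rw [h2, ee_add]
    ring
  rw [h1, norm_mul]
  refine mul_le_mul_of_nonneg_left ?_ (norm_nonneg _)
  have h2 : (m * 2 ^ j : ℤ) ≤ (m + 1) * 2 ^ j := by
    have : (0 : ℤ) < 2 ^ j := by positivity
    nlinarith
  have h3 := (hA (Q.be u - β) (m * 2 ^ j) ((m + 1) * 2 ^ j) w (2 / 2 ^ j) (4 / 4 ^ j) h2
    (by positivity) (by positivity) (fun v _ => hw v) (fun v _ _ => hl v)).2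
  have h4 : nd (Q.be u - β) = nd (β - Q.be u) := by
    rw [← nd_neg, neg_sub]
  rw [h4] at h3
  have h5 : (2 : ℝ) / 2 ^ j + 4 / 4 ^ j * (((m + 1) * 2 ^ j - m * 2 ^ j : ℤ) : ℝ) = 6 / 2 ^ j := by
    have h6 : (((m + 1) * 2 ^ j - m * 2 ^ j : ℤ) : ℝ) = 2 ^ j := by
      push_cast
      ring
    have h7 : (4 : ℝ) ^ j = 2 ^ j * 2 ^ j := by
      rw [← mul_pow]
      norm_num
    rw [h6, h7]
    field_simp
    norm_num
  rw [h5] at h3
  obtain ⟨S, hS⟩ : ∃ S, S = ‖∑ v ∈ Ico (m * 2 ^ j) ((m + 1) * 2 ^ j),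
    (w v : ℂ) * ee ((Q.be u - β) * (v : ℝ))‖ := ⟨_, rfl⟩
  show ‖∑ v ∈ Ico (m * 2 ^ j) ((m + 1) * 2 ^ j), (w v : ℂ) * ee ((Q.be u - β) * (v : ℝ))‖ ≤ _
  rw [← hS] at h3 ⊢
  have hS0 : 0 ≤ S := by rw [hS]; exact norm_nonneg _
  have h8 : S * (2 * (q ^ 40 / 2 ^ j)) ≤ 6 / 2 ^ j :=
    (mul_le_mul_of_nonneg_left (by linarith) hS0).trans h3
  rw [le_div_iff₀ (by positivity)]
  have h2j : (0 : ℝ) < 2 ^ j := by positivity
  have h9 : S * (2 * (q ^ 40 / 2 ^ j)) = 2 * (S * q ^ 40) / 2 ^ j := by ring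
  rw [h9, div_le_div_iff_of_pos_right h2j] at h8
  linarith

open Classical in
/-- one block, all pieces -/
theorem strblk (hA : T_ABL) {θ : Type} [Fintype θ] (Q : Fam θ) {r c j : ℕ} {κ m : ℤ}
    (w : ℤ → ℝ) (q β : ℝ) (hrc : r + 2 ≤ c) (hq : 1 ≤ q) (hm : m ∈ Ico (κ - r) (κ + r))
    (hw : ∀ v, |w v| ≤ 2 / 2 ^ j) (hl : ∀ v, |w (v + 1) - w v| ≤ 4 / 4 ^ j)
    (hβ : ∀ u, near c (Q.sc u) (Q.mm u) j κ → q ^ 40 / 2 ^ j ≤ nd (β - Q.be u)) :
    ‖∑ v ∈ blk j m, (w v : ℂ) * Q.str j v * ee (-(β * (v : ℝ)))‖ ≤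
      ∑ u ∈ univ.filter (fun u => near c (Q.sc u) (Q.mm u) j κ), ‖Q.co u‖ * (3 / q ^ 40) := by
  have hq0 : 0 < q := by linarith
  have h0 : (0 : ℤ) < 2 ^ j := by positivity
  rw [mem_Ico] at hm
  have h1 : ∑ v ∈ blk j m, (w v : ℂ) * Q.str j v * ee (-(β * (v : ℝ))) =
      ∑ u, ∑ v ∈ blk j m, (w v : ℂ) * (if j ≤ Q.sc u ∧ v ∈ blk (Q.sc u) (Q.mm u) then
        Q.co u * ee (Q.be u * (v : ℝ)) else 0) * ee (-(β * (v : ℝ))) := by
    rw [sum_comm]
    refine sum_congr rfl fun v _ => ?_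
    unfold Fam.str
    rw [mul_sum, sum_mul]
  rw [h1, sum_filter]
  refine (norm_sum_le _ _).trans (sum_le_sum fun u _ => ?_)
  by_cases hju : j ≤ Q.sc u ∧ m / 2 ^ (Q.sc u - j) = Q.mm u
  · have h2 : ∀ v ∈ blk j m, (w v : ℂ) * (if j ≤ Q.sc u ∧ v ∈ blk (Q.sc u) (Q.mm u) then
        Q.co u * ee (Q.be u * (v : ℝ)) else 0) * ee (-(β * (v : ℝ))) =
        (w v : ℂ) * (Q.co u * ee (Q.be u * (v : ℝ))) * ee (-(β * (v : ℝ))) := by
      intro v hv
      rw [if_pos ⟨hju.1, (blk_iff hju.1 hv).2 hju.2⟩]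
    have h3 : near c (Q.sc u) (Q.mm u) j κ := by
      have h4 : m * 2 ^ j ∈ blk j m := by
        rw [mem_blk]
        exact Int.mul_ediv_cancel m h0.ne'
      refine near_of_mem hrc hju.1 ((blk_iff hju.1 h4).2 hju.2) ?_ ?_
      · exact mul_le_mul_of_nonneg_right hm.1 h0.le
      · exact mul_lt_mul_of_pos_right hm.2 h0
    rw [sum_congr rfl h2, if_pos h3]
    exact piece hA Q u j m w q β hq hw hl (hβ u h3)
  · have h2 : ∀ v ∈ blk j m, (w v : ℂ) * (if j ≤ Q.sc u ∧ v ∈ blk (Q.sc u) (Q.mm u) then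
        Q.co u * ee (Q.be u * (v : ℝ)) else 0) * ee (-(β * (v : ℝ))) = 0 := by
      intro v hv
      rw [if_neg, mul_zero, zero_mul]
      rintro ⟨h3, h4⟩
      exact hju ⟨h3, (blk_iff h3 hv).1 h4⟩
    rw [sum_congr rfl h2, sum_const_zero, norm_zero]
    split_ifs
    · positivity
    · exact le_rfl

theorem pf_SIG (hH : T_HAT) (hW : T_WIN) (hA : T_ABL) : T_SIG := by
  classical
  intro r
  have hK : (0 : ℝ) < K0 := by unfold K0; positivity
  refine ⟨2 * r * (6 * (166 * K0 + 8) + 3) + 1, by positivity, ?_⟩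
  intro θ _ q G Q j κ c hq hG hrc hcf hcard hsum β hβ j' κ' hj' hκ1 hκ2
  have hq0 : 0 < q := by linarith
  have hcard' : ((univ.filter (fun u => near c (Q.sc u) (Q.mm u) j κ)).card : ℝ) ≤ q ^ 17 := by
    convert hcard
  have hsum' : ∑ u ∈ univ.filter (fun u => near c (Q.sc u) (Q.mm u) j κ), ‖Q.co u‖ ^ 2 ≤ q := by
    convert hsum
  have hZ := sum_le_pow _ (fun u => ‖Q.co u‖) q 8 hq (fun u _ => norm_nonneg _) hcard' hsum'
  have h2j : (0 : ℝ) < 2 ^ j := by positivity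
  have h0 : (0 : ℤ) < 2 ^ j := by positivity
  -- the weight
  obtain ⟨x, hx⟩ : ∃ x : ℤ, x = κ' * 2 ^ j' := ⟨_, rfl⟩
  obtain ⟨w, hw⟩ : ∃ w : ℤ → ℝ, ∀ v, w v = hat j' (v - x) := ⟨_, fun _ => rfl⟩
  have hjj : (1 : ℝ) / 2 ^ j' ≤ 2 / 2 ^ j ∧ (1 : ℝ) / 4 ^ j' ≤ 4 / 4 ^ j := by
    rcases hj' with rfl | rfl
    · constructor
      · exact div_le_div_of_nonneg_right (by norm_num) (by positivity)
      · exact div_le_div_of_nonneg_right (by norm_num) (by positivity)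
    · rw [pow_succ, pow_succ]
      constructor
      · apply le_of_eq
        field_simp
      · apply le_of_eq
        field_simp
  have hw1 : ∀ v, |w v| ≤ 2 / 2 ^ j := by
    intro v
    have h1 := hH.2.1 j' (v - x)
    rw [hw, abs_of_nonneg h1.1]
    exact h1.2.1.trans hjj.1
  have hw2 : ∀ v, |w (v + 1) - w v| ≤ 4 / 4 ^ j := by
    intro v
    have h1 := (hH.2.1 j' (v - x)).2.2.1
    rw [hw, hw]
    have h2 : v + 1 - x = v - x + 1 := by ring
    rw [h2]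
    exact h1.trans hjj.2
  -- the average as a sum over the window
  have hph : ph G β j' κ' = ∑ v ∈ Ico ((κ - r) * 2 ^ j) ((κ + r) * 2 ^ j),
      (w v : ℂ) * G v * ee (-(β * (v : ℝ))) := by
    unfold ph
    have h1 := hH.1 (fun v => G v * ee (-(β * (v : ℝ)))) j' x
    rw [← hx]
    rw [h1, mul_div_cancel_left₀ _ (pow_ne_zero _ (by norm_num))]
    have h2 : Ico x (x + 2 ^ (j' + 1)) ⊆ Ico ((κ - r) * 2 ^ j) ((κ + r) * 2 ^ j) := by
      apply Ico_subset_Ico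
      · rw [hx]
        exact hκ1
      · rw [hx, pow_succ]
        have : κ' * 2 ^ j' + 2 ^ j' * 2 = (κ' + 2) * 2 ^ j' := by ring
        rw [this]
        exact hκ2
    rw [← sum_subset h2]
    · refine sum_congr rfl fun v _ => ?_
      rw [hw]
      ring
    · intro v _ hv
      have h3 : v - x < 0 ∨ 2 ^ (j' + 1) ≤ v - x + 1 := by
        rw [mem_Ico] at hv
        by_cases h4 : x ≤ v
        · right
          have h5 : ¬ v < x + 2 ^ (j' + 1) := fun h => hv ⟨h4, h⟩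
          have h6 : (0 : ℤ) < 2 ^ (j' + 1) := by positivity
          omega
        · left
          omega
      rw [hw, (hH.2.1 j' (v - x)).2.2.2 h3]
      simp
  rw [hph, sum_win _ j (κ - r) (κ + r) (by omega)]
  have hblk : ∀ m ∈ Ico (κ - r) (κ + r), ‖∑ v ∈ blk j m, (w v : ℂ) * G v *
      ee (-(β * (v : ℝ)))‖ ≤ (6 * (166 * K0 + 8) + 3) / q ^ 7 := by
    intro m hm
    have hm' := mem_Ico.1 hm
    have h1 : ∑ v ∈ blk j m, (w v : ℂ) * G v * ee (-(β * (v : ℝ))) =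
        ∑ v ∈ blk j m, (w v : ℂ) * (G v - Q.str j v) * ee (-(β * (v : ℝ))) +
          ∑ v ∈ blk j m, (w v : ℂ) * Q.str j v * ee (-(β * (v : ℝ))) := by
      rw [← sum_add_distrib]
      refine sum_congr rfl fun v _ => ?_
      ring
    have h2 := strblk hA Q w q β hrc hq hm hw1 hw2 hβ
    rw [← sum_mul] at h2
    have h3 : (∑ u ∈ univ.filter (fun u => near c (Q.sc u) (Q.mm u) j κ), ‖Q.co u‖) *
        (3 / q ^ 40) ≤ 3 / q ^ 7 := by
      refine (mul_le_mul_of_nonneg_right hZ (by positivity)).trans ?_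
      rw [mul_div_assoc', div_le_div_iff₀ (by positivity) (by positivity)]
      have : q ^ (8 + 1) * 3 * q ^ 7 = 3 * q ^ 16 := by ring
      rw [this]
      exact mul_le_mul_of_nonneg_left (pow_le_pow_right₀ hq (by norm_num)) (by norm_num)
    have h4 := hW (fun v => G v - Q.str j v) j m w (K0 / q ^ 8) (2 * q ^ 9) (q ^ 40) (2 / 2 ^ j)
      (4 / 4 ^ j) β (by positivity) (by positivity) (one_le_pow₀ hq) (by positivity)
      (by positivity) (hcf m) (fun v hv => by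
        rw [mem_blk] at hv
        have h5 : ‖Q.str j v‖ ≤ q ^ 9 := (str_le Q hrc (κ := κ) (j := j) (v := v)
          ((Int.le_ediv_iff_mul_le h0).1 (hv ▸ hm'.1))
          ((Int.ediv_lt_iff_lt_mul h0).1 (hv ▸ hm'.2))).trans hZ
        have h6 := norm_sub_le (G v) (Q.str j v)
        have h7 := hG v
        have h8 : (1 : ℝ) ≤ q ^ 9 := one_le_pow₀ hq
        show ‖G v - Q.str j v‖ ≤ 2 * q ^ 9
        linarith)
      (fun v _ => hw1 v) (fun v _ _ => hw2 v)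
    have h5 : ((2 : ℝ) / 2 ^ j + 4 / 4 ^ j * 2 ^ j) * 2 ^ j = 6 := by
      have h7 : (4 : ℝ) ^ j = 2 ^ j * 2 ^ j := by
        rw [← mul_pow]
        norm_num
      rw [h7]
      field_simp
      norm_num
    have h6 : Real.sqrt (q ^ 40) = q ^ 20 := by
      rw [show q ^ 40 = (q ^ 20) ^ 2 by ring]
      exact Real.sqrt_sq (by positivity)
    have h7 : Real.log (q ^ 40) = 40 * Real.log q := by
      rw [Real.log_pow]
      norm_num
    have h8 : Real.log q ≤ q := Real.log_le_self hq0.le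
    rw [h5, h6, h7] at h4
    have h9 : K0 / q ^ 8 * (6 + 4 * (40 * Real.log q)) ≤ 166 * K0 / q ^ 7 := by
      have h10 : K0 / q ^ 8 * (6 + 4 * (40 * Real.log q)) ≤ K0 / q ^ 8 * (166 * q) :=
        mul_le_mul_of_nonneg_left (by nlinarith) (by positivity)
      have h11 : K0 / q ^ 8 * (166 * q) = 166 * K0 / q ^ 7 := by
        field_simp
      linarith
    have h12 : 4 * (2 * q ^ 9) / q ^ 20 ≤ 8 / q ^ 7 := by
      rw [div_le_div_iff₀ (by positivity) (by positivity)]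
      have : q ^ 16 ≤ q ^ 20 := pow_le_pow_right₀ hq (by norm_num)
      nlinarith
    have h13 : (6 * (166 * K0 + 8) + 3) / q ^ 7 =
        6 * (166 * K0 / q ^ 7 + 8 / q ^ 7) + 3 / q ^ 7 := by
      field_simp
    rw [h1, h13]
    refine (norm_add_le _ _).trans (add_le_add (h4.trans ?_) (h2.trans h3))
    linarith
  refine (norm_sum_le _ _).trans ((sum_le_card_nsmul _ _ _ hblk).trans ?_)
  rw [Int.card_Ico, nsmul_eq_mul]
  have h9 : (((κ + r - (κ - r)).toNat : ℕ) : ℝ) = 2 * r := by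
    have : (κ + r - (κ - r)).toNat = 2 * r := by omega
    rw [this]
    push_cast
    ring
  rw [h9, mul_div_assoc']
  refine div_le_div_of_nonneg_right ?_ (by positivity)
  linarith

end Pool.Agent.H81.BOU
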