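import Pool.Agent.H31.BOU.Targets3

/-!
# Row TRF: transference
-/

set_option autoImplicit false

open Finset Pool.Agent.H31.BOU MeasureTheory

universe u

namespace Pool.Agent.H81.BOU.TRF

section

variable {X : Type u} [MeasurableSpace X]

theorem AX_meas (T : X ≃ᵐ X) {f g : X → ℂ} (hf : Measurable f) (hg : Measurable g) (N : ℕ) :
    Measurable (fun x => AX T f g N x) := by
  unfold AX
  refine Measurable.div_const (Finset.measurable_fun_sum _ fun n _ => ?_) _
  exact (hf.comp (T.measurable.iterate n)).mul (hg.comp (T.symm.measurable.iterate n))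

theorem jmp_meas (A : ℕ → X → ℂ) (hA : ∀ N, Measurable (A N)) (K : ℕ) (lam : ℝ) (M : ℕ) :
    MeasurableSet {x | Jmp K lam M (fun N => A N x)} := by
  obtain ⟨ext, hext⟩ : ∃ ext : (Fin (K + 1) → ℕ) → ℕ → ℕ, ∀ v i, ext v i =
      if h : i < K + 1 then v ⟨i, h⟩ else 0 := ⟨_, fun _ _ => rfl⟩
  have h1 : {x | Jmp K lam M (fun N => A N x)} = ⋃ v : Fin (K + 1) → ℕ,
      {x | (1 ≤ ext v 0 ∧ (∀ i < K, 2 * ext v i ≤ ext v (i + 1)) ∧ ext v K ≤ M) ∧
        ∀ i : Fin K, lam < ‖A (ext v i) x - A (ext v (i + 1)) x‖} := by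
    ext x
    rw [Set.mem_iUnion]
    constructor
    · rintro ⟨n, h1, h2, h3, h4⟩
      have h5 : ∀ i, i ≤ K → ext (fun i => n i) i = n i := by
        intro i hi
        rw [hext, dif_pos (by omega)]
      refine ⟨fun i => n i, ⟨?_, fun i hi => ?_, ?_⟩, fun i => ?_⟩
      · rw [h5 0 (Nat.zero_le _)]
        exact h1
      · rw [h5 i hi.le, h5 (i + 1) hi]
        exact h2 i hi
      · rw [h5 K le_rfl]
        exact h3
      · rw [h5 i i.2.le, h5 (i + 1) i.2]
        exact h4 i i.2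
    · rintro ⟨v, ⟨h1, h2, h3⟩, h4⟩
      exact ⟨ext v, h1, h2, h3, fun i hi => h4 ⟨i, hi⟩⟩
  rw [h1]
  refine MeasurableSet.iUnion fun v => ?_
  by_cases hc : 1 ≤ ext v 0 ∧ (∀ i < K, 2 * ext v i ≤ ext v (i + 1)) ∧ ext v K ≤ M
  · have h2 : {x | (1 ≤ ext v 0 ∧ (∀ i < K, 2 * ext v i ≤ ext v (i + 1)) ∧ ext v K ≤ M) ∧
        ∀ i : Fin K, lam < ‖A (ext v i) x - A (ext v (i + 1)) x‖} =
        ⋂ i : Fin K, {x | lam < ‖A (ext v i) x - A (ext v (i + 1)) x‖} := by
      ext x
      rw [Set.mem_iInter]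
      exact ⟨fun h => h.2, fun h => ⟨hc, h⟩⟩
    rw [h2]
    exact MeasurableSet.iInter fun i => measurableSet_lt measurable_const ((hA _).sub (hA _)).norm
  · have h2 : {x | (1 ≤ ext v 0 ∧ (∀ i < K, 2 * ext v i ≤ ext v (i + 1)) ∧ ext v K ≤ M) ∧
        ∀ i : Fin K, lam < ‖A (ext v i) x - A (ext v (i + 1)) x‖} = ∅ := by
      ext x
      exact ⟨fun h => absurd h.1 hc, fun h => absurd h (Set.notMem_empty _)⟩
    rw [h2]
    exact MeasurableSet.empty

theorem symm_iter (T : X ≃ᵐ X) (n : ℕ) (x : X) : T.symm^[n] (T^[n] x) = x := by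
  induction n generalizing x with
  | zero => rfl
  | succ n ih =>
    rw [Function.iterate_succ_apply', Function.iterate_succ_apply, ih,
      MeasurableEquiv.symm_apply_apply]

end

theorem pf_TRF (hJ : T_FJ) : T_TRF.{u} := by
  classical
  intro ε lam hε hlam
  obtain ⟨K, hK⟩ := hJ ε lam hε hlam
  refine ⟨K, ?_⟩
  intro X _ μ _ T f g hT hf hg hf1 hg1 M
  have hEm := jmp_meas (fun N x => AX T f g N x) (fun N => AX_meas T hf hg N) K lam M
  refine ⟨hEm, ?_⟩
  obtain ⟨E, hE⟩ : ∃ E, E = {x | Jmp K lam M (fun N => AX T f g N x)} := ⟨_, rfl⟩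
  rw [← hE] at hEm ⊢
  have hM : (M : ℤ) ≤ 2 ^ M := by exact_mod_cast (Nat.lt_two_pow_self (n := M)).le
  -- the set of times
  obtain ⟨S, hS⟩ : ∃ S : Finset ℤ, S = Ico ((2 : ℤ) ^ M) (3 * 2 ^ M) := ⟨_, rfl⟩
  have h2M : (0 : ℤ) < 2 ^ M := by positivity
  -- the pointwise bound
  have hpt : ∀ x : X, ((S.filter fun k => T^[k.toNat] x ∈ E).card : ℝ) ≤ ε * 2 ^ (M + 1) := by
    intro x
    obtain ⟨F, hF⟩ : ∃ F : ℤ → ℂ, ∀ v, F v =
        if v ∈ Ico (0 : ℤ) (2 ^ (M + 1 + 1)) then f (T^[v.toNat] x) else 0 := ⟨_, fun _ => rfl⟩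
    obtain ⟨G, hG⟩ : ∃ G : ℤ → ℂ, ∀ v, G v =
        if v ∈ Ico (0 : ℤ) (2 ^ (M + 1 + 1)) then g (T^[v.toNat] x) else 0 := ⟨_, fun _ => rfl⟩
    have hFb : Bdd (M + 1) F := by
      refine ⟨fun v => ?_, fun v hv => by rw [hF, if_neg hv]⟩
      rw [hF]
      split_ifs
      · exact hf1 _
      · rw [norm_zero]; exact zero_le_one
    have hGb : Bdd (M + 1) G := by
      refine ⟨fun v => ?_, fun v hv => by rw [hG, if_neg hv]⟩
      rw [hG]
      split_ifs
      · exact hg1 _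
      · rw [norm_zero]; exact zero_le_one
    have h1 := hK (M + 1) F G (Nat.le_add_left 1 M) hFb hGb
    refine le_trans ?_ h1
    rw [Nat.cast_le]
    apply card_le_card
    intro k hk
    rw [mem_filter] at hk
    obtain ⟨hkS, hkE⟩ := hk
    rw [hS] at hkS
    have hkS' := mem_Ico.1 hkS
    refine mem_filter.2 ⟨hkS, ?_⟩
    rw [hE] at hkE
    obtain ⟨n, hn1, hn2, hn3, hn4⟩ := hkE
    have h4 : (2 : ℤ) ^ (M + 1 + 1) = 4 * 2 ^ M := by ring
    -- equality of the averages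
    have hAv : ∀ N : ℕ, N ≤ M → AN F G N k = AX T f g N (T^[k.toNat] x) := by
      intro N hN
      unfold AN AX
      congr 1
      refine sum_congr rfl fun i hi => ?_
      rw [mem_Icc] at hi
      have hi2 : (i : ℤ) ≤ 2 ^ M := by
        have : (i : ℤ) ≤ M := by exact_mod_cast hi.2.trans hN
        exact this.trans hM
      rw [hF, hG, if_pos (by rw [mem_Ico, h4]; constructor <;> omega),
        if_pos (by rw [mem_Ico, h4]; constructor <;> omega)]
      have h5 : (k + (i : ℤ)).toNat = i + k.toNat := by omega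
      have h6 : k.toNat = i + (k - (i : ℤ)).toNat := by omega
      rw [h5, Function.iterate_add_apply]
      have h7 : T.symm^[i] (T^[k.toNat] x) = T^[(k - (i : ℤ)).toNat] x := by
        rw [h6, Function.iterate_add_apply, symm_iter]
      rw [h7]
    have hmon : ∀ d i, i + d = K → n i ≤ M := by
      intro d
      induction d with
      | zero =>
        intro i hi
        rw [add_zero] at hi
        rw [hi]
        exact hn3
      | succ d ih =>
        intro i hi
        have h5 := ih (i + 1) (by omega)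
        have h6 := hn2 i (by omega)
        omega
    refine ⟨n, hn1, hn2, ?_, fun i hi => ?_⟩
    · refine hn3.trans ?_
      have h5 : M < 2 ^ M := Nat.lt_two_pow_self
      have h6 : 2 ^ M ≤ 2 ^ (M + 1) := Nat.pow_le_pow_right (by norm_num) (Nat.le_succ M)
      omega
    · have h5 := hn4 i hi
      show lam < ‖AN F G (n i) k - AN F G (n (i + 1)) k‖
      rw [hAv _ (hmon (K - i) i (by omega)), hAv _ (hmon (K - (i + 1)) (i + 1) (by omega))]
      exact h5
  -- integration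
  have hmp : ∀ k : ℤ, MeasurableSet (T^[k.toNat] ⁻¹' E) := fun k =>
    (T.measurable.iterate _) hEm
  have hint : ∀ k ∈ S, Integrable ((T^[k.toNat] ⁻¹' E).indicator fun _ => (1 : ℝ)) μ := fun k _ =>
    (integrable_const (1 : ℝ)).indicator (hmp k)
  have h2 : ∫ x, ∑ k ∈ S, (T^[k.toNat] ⁻¹' E).indicator (fun _ => (1 : ℝ)) x ∂μ =
      2 ^ (M + 1) * μ.real E := by
    rw [integral_finsetSum _ hint]
    have h3 : ∀ k ∈ S, ∫ x, (T^[k.toNat] ⁻¹' E).indicator (fun _ => (1 : ℝ)) x ∂μ = μ.real E := by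
      intro k _
      rw [integral_indicator_const _ (hmp k), smul_eq_mul, mul_one]
      unfold Measure.real
      rw [(hT.iterate k.toNat).measure_preimage hEm.nullMeasurableSet]
    rw [sum_congr rfl h3, sum_const, nsmul_eq_mul]
    congr 1
    rw [hS, Int.card_Ico]
    have h5 : ((3 : ℤ) * 2 ^ M - 2 ^ M).toNat = 2 ^ (M + 1) := by
      have h6 : (3 : ℤ) * 2 ^ M - 2 ^ M = ((2 ^ (M + 1) : ℕ) : ℤ) := by
        push_cast
        ring
      rw [h6, Int.toNat_natCast]
    rw [h5]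
    push_cast
    rfl
  have h3 : ∫ x, ∑ k ∈ S, (T^[k.toNat] ⁻¹' E).indicator (fun _ => (1 : ℝ)) x ∂μ ≤
      ∫ _x, ε * 2 ^ (M + 1) ∂μ := by
    refine integral_mono (integrable_finsetSum _ hint) (integrable_const _) fun x => ?_
    refine le_trans (le_of_eq ?_) (hpt x)
    rw [card_filter]
    push_cast
    refine sum_congr rfl fun k _ => ?_
    rw [Set.indicator_apply]
    rfl
  rw [h2, integral_const, probReal_univ, one_smul] at h3
  have h4 : (0 : ℝ) < 2 ^ (M + 1) := by positivity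
  nlinarith

end Pool.Agent.H81.BOU.TRF
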